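import Pool.Agent.Y186.RA.Main

/-!
# MP_42dd51_an, Q2: no finite partition into pieces with injective coarse maps

There are uniformly locally finite metric spaces `X` and `Y` with an embedding of the uniform Roe
algebra of `X` into that of `Y` such that `X` is not a finite union of subspaces which admit
injective coarse maps to `Y`, not even of subspaces which admit uniformly finite-to-one coarse maps
to `Y`. The space `Y` has property A.

The definitions are in `Pool/Agent/Y186/RA/Defs.lean`.
-/

set_option autoImplicit false

open Pool.Agent.Y186.RA

namespace Pool.Agent.Results.MP_42dd51_an.NoFinitePartition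

/-- There are uniformly locally finite metric spaces `X` and `Y`, `Y` with property A, and an
injective `*`-homomorphism from the uniform Roe algebra of `X` to the uniform Roe algebra of `Y`,
such that `X` is not the union of finitely many subsets each of which has a uniformly finite-to-one
coarse map to `Y`; in particular, `X` has no finite partition into subsets which have injective
coarse maps to `Y` (`noPartition` below). -/
theorem result : ∃ (X Y : Type) (_ : MetricSpace X) (_ : MetricSpace Y),
    UniformlyLocallyFinite X ∧ UniformlyLocallyFinite Y ∧ PropertyA Y ∧ Embeds X Y ∧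
      ¬ HasPieces X Y :=
  main

/-- Consequence, in the words of the question: no finite partition of `X` has all pieces
injectively and coarsely mappable into `Y`. -/
theorem noPartition : ∃ (X Y : Type) (_ : MetricSpace X) (_ : MetricSpace Y),
    UniformlyLocallyFinite X ∧ UniformlyLocallyFinite Y ∧ Embeds X Y ∧
    ¬ ∃ (m : ℕ) (P : Fin m → Set X), (⋃ i, P i) = Set.univ ∧
      Pairwise (fun i j => Disjoint (P i) (P j)) ∧
      ∀ i, ∃ f : P i → Y, Coarse (P i) f ∧ Function.Injective f := by
  obtain ⟨X, Y, mX, mY, uX, uY, _, hP, hno⟩ := result
  refine ⟨X, Y, mX, mY, uX, uY, hP, ?_⟩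
  rintro ⟨m, P, hcov, -, hf⟩
  refine hno ⟨m, P, fun x => ?_, fun i => ?_⟩
  · have hx : x ∈ ⋃ i, P i := by rw [hcov]; trivial
    simpa using hx
  · obtain ⟨f, h1, h2⟩ := hf i
    refine ⟨f, h1, 1, fun y => ?_⟩
    rw [Nat.cast_one, Set.encard_le_one_iff]
    intro a b ha hb
    exact h2 (ha.trans hb.symm)

end Pool.Agent.Results.MP_42dd51_an.NoFinitePartition
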